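import Pool.Agent.U136.DX.Stm

/-!
# Project DX, package SYM: symmetrisation of a trilinear form
-/

set_option autoImplicit false

namespace Pool.Agent.U333.DX

open Pool.Agent.N983.RT Pool.Agent.U136.DS Pool.Agent.U136.DX

lemma nsq_nn (k : Wv) : 0 ≤ nsq k := Finset.sum_nonneg fun _ _ => sq_nonneg _

lemma nsq_ng (k : Wv) : nsq (-k) = nsq k := by simp [nsq]

/-- the bilinear product -/
def bil (a b : Fin 3 → ℂ) : ℂ := ∑ j, a j * b j

lemma bil_le (a b : Fin 3 → ℂ) :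
    ‖bil a b‖ ≤ Real.sqrt (∑ i, ‖a i‖ ^ 2) * Real.sqrt (∑ i, ‖b i‖ ^ 2) := by
  unfold bil
  calc ‖∑ j, a j * b j‖ ≤ ∑ j, ‖a j * b j‖ := norm_sum_le _ _
    _ = ∑ j, ‖a j‖ * ‖b j‖ := by simp only [norm_mul]
    _ ≤ _ := Real.sum_mul_le_sqrt_mul_sqrt _ _ _

lemma dt_le (a : Fin 3 → ℂ) (k : Wv) :
    ‖dt a k‖ ≤ Real.sqrt (∑ i, ‖a i‖ ^ 2) * Real.sqrt (nsq k) := by
  have h := bil_le a (fun i => (k i : ℂ))
  have e : ∑ i, ‖((k i : ℤ) : ℂ)‖ ^ 2 = nsq k := by
    unfold nsq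
    apply Finset.sum_congr rfl
    intro i _
    rw [Complex.norm_intCast, sq_abs]
  rw [e] at h
  exact h

lemma dt_neg (a : Fin 3 → ℂ) (k l : Wv) (h : dt a k = 0) : dt a (-(k + l)) = -dt a l := by
  have h1 : dt a (-(k + l)) = -(dt a k + dt a l) := by
    unfold dt
    rw [← Finset.sum_add_distrib, ← Finset.sum_neg_distrib]
    apply Finset.sum_congr rfl
    intro i _
    simp only [Pi.neg_apply, Pi.add_apply]
    push_cast
    ring
  rw [h1, h, zero_add]

lemma nsq_diff (k l : Wv) (X : ℝ) (h1 : nsq l ≤ X) (h2 : nsq (k + l) ≤ X) :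
    |nsq (k + l) - nsq l| ≤ 2 * Real.sqrt (nsq k) * Real.sqrt X := by
  have e : nsq (k + l) - nsq l = ∑ i, (k i : ℝ) * ((k i : ℝ) + 2 * (l i : ℝ)) := by
    unfold nsq
    rw [← Finset.sum_sub_distrib]
    apply Finset.sum_congr rfl
    intro i _
    simp only [Pi.add_apply]
    push_cast
    ring
  have hX : 0 ≤ X := (nsq_nn l).trans h1
  rw [e]
  calc |∑ i, (k i : ℝ) * ((k i : ℝ) + 2 * (l i : ℝ))|
      ≤ ∑ i, |(k i : ℝ)| * |(k i : ℝ) + 2 * (l i : ℝ)| := by
        refine (Finset.abs_sum_le_sum_abs _ _).trans (le_of_eq ?_)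
        simp only [abs_mul]
    _ ≤ Real.sqrt (∑ i, |(k i : ℝ)| ^ 2) * Real.sqrt (∑ i, |(k i : ℝ) + 2 * (l i : ℝ)| ^ 2) :=
        Real.sum_mul_le_sqrt_mul_sqrt _ _ _
    _ ≤ Real.sqrt (nsq k) * Real.sqrt (4 * X) := by
        apply mul_le_mul
        · apply Real.sqrt_le_sqrt
          unfold nsq
          simp only [sq_abs]
          exact le_rfl
        · apply Real.sqrt_le_sqrt
          have : ∑ i, |(k i : ℝ) + 2 * (l i : ℝ)| ^ 2 ≤ 2 * nsq (k + l) + 2 * nsq l := by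
            unfold nsq
            rw [Finset.mul_sum, Finset.mul_sum, ← Finset.sum_add_distrib]
            apply Finset.sum_le_sum
            intro i _
            simp only [Pi.add_apply, sq_abs]
            push_cast
            nlinarith [sq_nonneg (k i : ℝ)]
          linarith
        · positivity
        · positivity
    _ = 2 * Real.sqrt (nsq k) * Real.sqrt X := by
        rw [Real.sqrt_mul (by norm_num : (0 : ℝ) ≤ 4)]
        have : Real.sqrt 4 = 2 := by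
          rw [show (4 : ℝ) = 2 ^ 2 by norm_num]
          exact Real.sqrt_sq (by norm_num)
        rw [this]
        ring

/-- the pointwise estimate -/
lemma point (u : Fld) (hu : Adm u) (s : ℕ) (hs : 1 ≤ s) (k l : Wv) :
    |nsq (k + l) ^ s - nsq l ^ s| * ‖dt (u k) l‖ ≤
      2 * s * (ab u k * (mn k l (-(k + l)) ^ (1 / 2 : ℝ) * mx k l (-(k + l)) ^ s)) := by
  have hs1 : (1 : ℝ) ≤ s := by exact_mod_cast hs
  obtain ⟨A, hA⟩ : ∃ A, A = ab u k := ⟨_, rfl⟩
  have hA0 : 0 ≤ A := by rw [hA]; exact Real.sqrt_nonneg _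
  obtain ⟨P, hP⟩ : ∃ P, P = nsq k := ⟨_, rfl⟩
  obtain ⟨Q, hQ⟩ : ∃ Q, Q = nsq l := ⟨_, rfl⟩
  obtain ⟨R, hR⟩ : ∃ R, R = nsq (k + l) := ⟨_, rfl⟩
  obtain ⟨X, hX⟩ : ∃ X, X = mx k l (-(k + l)) := ⟨_, rfl⟩
  have hX' : X = max P (max Q R) := by rw [hX, mx, nsq_ng, hP, hQ, hR]
  have hP0 : 0 ≤ P := by rw [hP]; exact nsq_nn _
  have hQ0 : 0 ≤ Q := by rw [hQ]; exact nsq_nn _
  have hR0 : 0 ≤ R := by rw [hR]; exact nsq_nn _
  have hPX : P ≤ X := by rw [hX']; exact le_max_left _ _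
  have hQX : Q ≤ X := by rw [hX']; exact (le_max_left _ _).trans (le_max_right _ _)
  have hRX : R ≤ X := by rw [hX']; exact (le_max_right _ _).trans (le_max_right _ _)
  have hX0 : 0 ≤ X := hP0.trans hPX
  have d1 : ‖dt (u k) l‖ ≤ A * Real.sqrt Q := by rw [hA, hQ]; exact dt_le _ _
  have d2 : ‖dt (u k) l‖ ≤ A * Real.sqrt R := by
    have h := dt_le (u k) (-(k + l))
    rw [dt_neg _ _ _ (hu.div k), norm_neg, nsq_ng] at h
    rw [hA, hR]; exact h
  have p1 : |R ^ s - Q ^ s| ≤ X ^ s := by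
    have h1 : R ^ s ≤ X ^ s := pow_le_pow_left₀ hR0 hRX s
    have h2 : Q ^ s ≤ X ^ s := pow_le_pow_left₀ hQ0 hQX s
    have h3 : 0 ≤ R ^ s := by positivity
    have h4 : 0 ≤ Q ^ s := by positivity
    rw [abs_le]
    constructor <;> linarith
  have p2 : |R ^ s - Q ^ s| ≤ (2 * Real.sqrt P * Real.sqrt X) * s * X ^ (s - 1) := by
    refine (abs_pow_sub_pow_le R Q s).trans ?_
    have h1 : |R - Q| ≤ 2 * Real.sqrt P * Real.sqrt X := by
      rw [hP, hQ, hR]
      exact nsq_diff k l X (by rw [← hQ]; exact hQX) (by rw [← hR]; exact hRX)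
    have h2 : max |R| |Q| ≤ X := by
      rw [abs_of_nonneg hR0, abs_of_nonneg hQ0]
      exact max_le hRX hQX
    gcongr
  have hmn : mn k l (-(k + l)) = min P (min Q R) := by rw [mn, nsq_ng, hP, hQ, hR]
  rw [hmn, ← hX, ← hA, ← hR, ← hQ, ← Real.sqrt_eq_rpow]
  have hD0 : 0 ≤ ‖dt (u k) l‖ := norm_nonneg _
  have key2 : ∀ Y : ℝ, 0 ≤ Y → ‖dt (u k) l‖ ≤ A * Real.sqrt Y →
      |R ^ s - Q ^ s| * ‖dt (u k) l‖ ≤ 2 * s * (A * (Real.sqrt Y * X ^ s)) := by
    intro Y hY hd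
    calc |R ^ s - Q ^ s| * ‖dt (u k) l‖ ≤ X ^ s * (A * Real.sqrt Y) := by
          apply mul_le_mul p1 hd hD0 (by positivity)
      _ = 1 * (A * (Real.sqrt Y * X ^ s)) := by ring
      _ ≤ 2 * s * (A * (Real.sqrt Y * X ^ s)) := by
          apply mul_le_mul_of_nonneg_right (by linarith) (by positivity)
  rcases le_total P (min Q R) with h | h
  · rw [min_eq_left h]
    have d3 : ‖dt (u k) l‖ ≤ A * Real.sqrt X :=
      d1.trans (mul_le_mul_of_nonneg_left (Real.sqrt_le_sqrt hQX) hA0)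
    calc |R ^ s - Q ^ s| * ‖dt (u k) l‖
        ≤ ((2 * Real.sqrt P * Real.sqrt X) * s * X ^ (s - 1)) * (A * Real.sqrt X) := by
          apply mul_le_mul p2 d3 hD0 (by positivity)
      _ = 2 * s * (A * (Real.sqrt P * (X ^ (s - 1) * (Real.sqrt X * Real.sqrt X)))) := by ring
      _ = 2 * s * (A * (Real.sqrt P * X ^ s)) := by
          rw [Real.mul_self_sqrt hX0, pow_sub_one_mul (by omega)]
  · rw [min_eq_right h]
    rcases le_total Q R with h' | h'
    · rw [min_eq_left h']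
      exact key2 Q hQ0 d1
    · rw [min_eq_right h']
      exact key2 R hR0 d2

/-- the form as a sum over pairs -/
lemma form_eq (g : Wv → Wv → Wv → ℝ) (s n : ℕ) (u : Fld) :
    form g s n u = ∑ k ∈ cub n, ∑ l ∈ cub n,
      ((g k l (-(k + l)) * nsq (k + l) ^ s : ℝ) : ℂ) * dt (u k) l * bil (u l) (u (-(k + l))) := by
  have h1 : form g s n u = ∑ k ∈ cub n, ∑ l ∈ cub n, ∑ i : Fin 3, ∑ j : Fin 3,
      ((g k l (-(k + l)) * ((l i : ℝ) * nsq (k + l) ^ s) : ℝ) : ℂ) * u k i * u l j *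
        u (-(k + l)) j := by
    unfold form Tri
    calc _ = ∑ i : Fin 3, ∑ k ∈ cub n, ∑ j : Fin 3, ∑ l ∈ cub n,
        ((g k l (-(k + l)) * ((l i : ℝ) * nsq (k + l) ^ s) : ℝ) : ℂ) * u k i * u l j *
          u (-(k + l)) j := by
          apply Finset.sum_congr rfl
          intro i _
          exact Finset.sum_comm
      _ = ∑ k ∈ cub n, ∑ i : Fin 3, ∑ j : Fin 3, ∑ l ∈ cub n,
        ((g k l (-(k + l)) * ((l i : ℝ) * nsq (k + l) ^ s) : ℝ) : ℂ) * u k i * u l j *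
          u (-(k + l)) j := Finset.sum_comm
      _ = _ := by
          apply Finset.sum_congr rfl
          intro k _
          calc _ = ∑ i : Fin 3, ∑ l ∈ cub n, ∑ j : Fin 3,
              ((g k l (-(k + l)) * ((l i : ℝ) * nsq (k + l) ^ s) : ℝ) : ℂ) * u k i * u l j *
                u (-(k + l)) j := by
                apply Finset.sum_congr rfl
                intro i _
                exact Finset.sum_comm
            _ = _ := Finset.sum_comm
  rw [h1]
  apply Finset.sum_congr rfl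
  intro k _
  apply Finset.sum_congr rfl
  intro l _
  unfold dt bil
  rw [mul_assoc, Finset.sum_mul_sum, Finset.mul_sum]
  apply Finset.sum_congr rfl
  intro i _
  rw [Finset.mul_sum]
  apply Finset.sum_congr rfl
  intro j _
  push_cast
  ring

lemma term_eq (g : Wv → Wv → Wv → ℝ) (hg : ∀ k l m, g k l m = g k m l) (s : ℕ) (u : Fld)
    (hu : Adm u) (k l : Wv) :
    ((g k l (-(k + l)) * nsq (k + l) ^ s : ℝ) : ℂ) * dt (u k) l * bil (u l) (u (-(k + l))) +
      ((g k (-(k + l)) (-(k + -(k + l))) * nsq (k + -(k + l)) ^ s : ℝ) : ℂ) *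
        dt (u k) (-(k + l)) * bil (u (-(k + l))) (u (-(k + -(k + l)))) =
    ((g k l (-(k + l)) * (nsq (k + l) ^ s - nsq l ^ s) : ℝ) : ℂ) * dt (u k) l *
      bil (u l) (u (-(k + l))) := by
  have e1 : -(k + -(k + l)) = l := by abel
  have e2 : k + -(k + l) = -l := by abel
  have e3 : bil (u (-(k + l))) (u l) = bil (u l) (u (-(k + l))) := by
    unfold bil
    apply Finset.sum_congr rfl
    intro j _
    ring
  rw [e1, e2, nsq_ng, dt_neg _ _ _ (hu.div k), e3, hg k (-(k + l)) l]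
  push_cast
  ring

theorem t_SYM : S_SYM := by
  classical
  intro g hg s hs
  refine ⟨s, by positivity, ?_⟩
  intro n u hu hsupp
  rw [form_eq]
  obtain ⟨F, hF⟩ : ∃ F : Wv → Wv → ℂ, F = fun k l =>
    ((g k l (-(k + l)) * nsq (k + l) ^ s : ℝ) : ℂ) * dt (u k) l * bil (u l) (u (-(k + l))) :=
    ⟨_, rfl⟩
  have hFd : ∀ k l, F k l = ((g k l (-(k + l)) * nsq (k + l) ^ s : ℝ) : ℂ) * dt (u k) l *
    bil (u l) (u (-(k + l))) := fun k l => by rw [hF]
  obtain ⟨T, hT⟩ : ∃ T : Wv → Wv → ℝ, T = fun k l => |g k l (-(k + l))| *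
      (mn k l (-(k + l)) ^ (1 / 2 : ℝ) * mx k l (-(k + l)) ^ s) *
        (ab u k * ab u l * ab u (-(k + l))) := ⟨_, rfl⟩
  have hTd : ∀ k l, T k l = |g k l (-(k + l))| *
      (mn k l (-(k + l)) ^ (1 / 2 : ℝ) * mx k l (-(k + l)) ^ s) *
        (ab u k * ab u l * ab u (-(k + l))) := fun k l => by rw [hT]
  have hab : ∀ k, 0 ≤ ab u k := fun k => Real.sqrt_nonneg _
  have hmn0 : ∀ k l m : Wv, 0 ≤ mn k l m := fun k l m =>
    le_min (nsq_nn k) (le_min (nsq_nn l) (nsq_nn m))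
  have hmx0 : ∀ k l m : Wv, 0 ≤ mx k l m := fun k l m => (nsq_nn k).trans (le_max_left _ _)
  have hT0 : ∀ k l, 0 ≤ T k l := by
    intro k l
    rw [hTd]
    have := hab k
    have := hab l
    have := hab (-(k + l))
    have := hmn0 k l (-(k + l))
    have := hmx0 k l (-(k + l))
    positivity
  have hpt : ∀ k l, ‖F k l + F k (-(k + l))‖ ≤ 2 * s * T k l := by
    intro k l
    rw [hFd, hFd, term_eq g hg s u hu k l, norm_mul, norm_mul, Complex.norm_real, Real.norm_eq_abs,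
      abs_mul, hTd]
    have h1 := point u hu s hs k l
    have h2 : ‖bil (u l) (u (-(k + l)))‖ ≤ ab u l * ab u (-(k + l)) := bil_le _ _
    have h3 : 0 ≤ |g k l (-(k + l))| := abs_nonneg _
    have h4 := hab k
    have h5 := hmn0 k l (-(k + l))
    have h6 := hmx0 k l (-(k + l))
    calc |g k l (-(k + l))| * |nsq (k + l) ^ s - nsq l ^ s| * ‖dt (u k) l‖ *
          ‖bil (u l) (u (-(k + l)))‖
        = |g k l (-(k + l))| * ((|nsq (k + l) ^ s - nsq l ^ s| * ‖dt (u k) l‖) *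
          ‖bil (u l) (u (-(k + l)))‖) := by ring
      _ ≤ |g k l (-(k + l))| * ((2 * s * (ab u k * (mn k l (-(k + l)) ^ (1 / 2 : ℝ) *
          mx k l (-(k + l)) ^ s))) * (ab u l * ab u (-(k + l)))) := by
          apply mul_le_mul_of_nonneg_left _ h3
          apply mul_le_mul h1 h2 (norm_nonneg _) (by positivity)
      _ = _ := by ring
  have hS : ∀ k, ‖∑ l ∈ cub n, F k l‖ ≤ s * ∑ l ∈ cub n, T k l := by
    intro k
    have r1 : ∑ l ∈ (cub n).filter (fun l => -(k + l) ∈ cub n), F k l = ∑ l ∈ cub n, F k l := by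
      apply Finset.sum_filter_of_ne
      intro l _ hne
      by_contra hc
      apply hne
      rw [hFd, hsupp _ hc]
      unfold bil
      simp
    have r2 : ∑ l ∈ (cub n).filter (fun l => -(k + l) ∈ cub n), F k l =
        ∑ l ∈ (cub n).filter (fun l => -(k + l) ∈ cub n), F k (-(k + l)) := by
      apply Finset.sum_nbij' (fun l => -(k + l)) (fun l => -(k + l))
      · intro l hl
        rw [Finset.mem_filter] at hl ⊢
        have e1 : -(k + -(k + l)) = l := by abel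
        rw [e1]
        exact ⟨hl.2, hl.1⟩
      · intro l hl
        rw [Finset.mem_filter] at hl ⊢
        have e1 : -(k + -(k + l)) = l := by abel
        rw [e1]
        exact ⟨hl.2, hl.1⟩
      · intro l _
        abel
      · intro l _
        abel
      · intro l _
        have e1 : -(k + -(k + l)) = l := by abel
        rw [e1]
    have r3 : (2 : ℂ) * ∑ l ∈ cub n, F k l =
        ∑ l ∈ (cub n).filter (fun l => -(k + l) ∈ cub n), (F k l + F k (-(k + l))) := by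
      rw [Finset.sum_add_distrib, ← r2, r1]
      ring
    have r4 : 2 * ‖∑ l ∈ cub n, F k l‖ ≤ 2 * (s * ∑ l ∈ cub n, T k l) := by
      calc 2 * ‖∑ l ∈ cub n, F k l‖ = ‖(2 : ℂ) * ∑ l ∈ cub n, F k l‖ := by
            rw [norm_mul]; norm_num
        _ ≤ ∑ l ∈ (cub n).filter (fun l => -(k + l) ∈ cub n), ‖F k l + F k (-(k + l))‖ := by
            rw [r3]; exact norm_sum_le _ _
        _ ≤ ∑ l ∈ (cub n).filter (fun l => -(k + l) ∈ cub n), 2 * s * T k l :=
            Finset.sum_le_sum fun l _ => hpt k l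
        _ ≤ ∑ l ∈ cub n, 2 * s * T k l := by
            apply Finset.sum_le_sum_of_subset_of_nonneg (Finset.filter_subset _ _)
            intro l _ _
            have := hT0 k l
            positivity
        _ = 2 * (s * ∑ l ∈ cub n, T k l) := by rw [← Finset.mul_sum]; ring
    linarith
  have e1 : ∑ k ∈ cub n, ∑ l ∈ cub n, ((g k l (-(k + l)) * nsq (k + l) ^ s : ℝ) : ℂ) *
      dt (u k) l * bil (u l) (u (-(k + l))) = ∑ k ∈ cub n, ∑ l ∈ cub n, F k l := by
    rw [hF]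
  have e2 : ∑ k ∈ cub n, ∑ l ∈ cub n, |g k l (-(k + l))| *
      (mn k l (-(k + l)) ^ (1 / 2 : ℝ) * mx k l (-(k + l)) ^ s) *
        (ab u k * ab u l * ab u (-(k + l))) = ∑ k ∈ cub n, ∑ l ∈ cub n, T k l := by
    rw [hT]
  rw [e1, e2]
  calc ‖∑ k ∈ cub n, ∑ l ∈ cub n, F k l‖ ≤ ∑ k ∈ cub n, ‖∑ l ∈ cub n, F k l‖ := norm_sum_le _ _
    _ ≤ ∑ k ∈ cub n, s * ∑ l ∈ cub n, T k l := Finset.sum_le_sum fun k _ => hS k
    _ = s * ∑ k ∈ cub n, ∑ l ∈ cub n, T k l := by rw [← Finset.mul_sum]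

end Pool.Agent.U333.DX
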